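import Pool.Agent.N299.ND.Stm
import Pool.Agent.N299.Base

/-!
# Project ND (helper299), AU: approximate units of ideals (helper340)
-/

set_option autoImplicit false

noncomputable section

namespace Pool.Agent.N340.ND

open Pool.Agent.N299 Pool.Agent.N299.ND

/-- the function `r / (r + t)` -/
def fe (t r : ℝ) : ℝ := max r 0 / (max r 0 + t)

theorem fe_cont {t : ℝ} (ht : 0 < t) : Continuous (fe t) := by
  unfold fe
  refine Continuous.div (by fun_prop) (by fun_prop) fun r => ?_
  have := le_max_right r 0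
  positivity

theorem ge_cont {t : ℝ} (ht : 0 < t) : Continuous fun r : ℝ => 1 / (max r 0 + t) := by
  refine Continuous.div (by fun_prop) (by fun_prop) fun r => ?_
  have := le_max_right r 0
  positivity

theorem fe_nonneg {t : ℝ} (ht : 0 < t) (r : ℝ) : 0 ≤ fe t r := by
  unfold fe
  have := le_max_right r 0
  positivity

theorem fe_le_one {t : ℝ} (ht : 0 < t) (r : ℝ) : fe t r ≤ 1 := by
  unfold fe
  have := le_max_right r 0
  rw [div_le_one (by positivity)]
  linarith

theorem fe_bound {t : ℝ} (ht : 0 < t) {r : ℝ} (hr : 0 ≤ r) :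
    |(1 - fe t r) * r * (1 - fe t r)| ≤ t := by
  unfold fe
  rw [max_eq_left hr]
  have h1 : (1 : ℝ) - r / (r + t) = t / (r + t) := by
    field_simp
    ring
  rw [h1]
  have h2 : t / (r + t) * r * (t / (r + t)) = t * (t * r / (r + t) ^ 2) := by
    field_simp
  rw [h2, abs_of_nonneg (by positivity)]
  have h3 : t * r / (r + t) ^ 2 ≤ 1 := by
    rw [div_le_one (by positivity)]
    nlinarith
  nlinarith

section

variable {B : Type} [CStarAlgebra B] [PartialOrder B] [StarOrderedRing B]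

theorem one_sub_cfc {t : ℝ} (ht : 0 < t) {s : B} (hs : 0 ≤ s) :
    1 - cfc (fe t) s = cfc (fun r => 1 - fe t r) s := by
  have hsa : IsSelfAdjoint s := IsSelfAdjoint.of_nonneg hs
  rw [cfc_sub (R := ℝ) (fun _ => 1) (fe t) s (by fun_prop) (fe_cont ht).continuousOn,
    cfc_const_one ℝ s]

theorem cut_norm {t : ℝ} (ht : 0 < t) {s : B} (hs : 0 ≤ s) :
    ‖(1 - cfc (fe t) s) * s * (1 - cfc (fe t) s)‖ ≤ t := by
  have hsa : IsSelfAdjoint s := IsSelfAdjoint.of_nonneg hs
  have hc : Continuous fun r => 1 - fe t r := continuous_const.sub (fe_cont ht)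
  have h1 : (1 - cfc (fe t) s) * s * (1 - cfc (fe t) s) =
      cfc (fun r => (1 - fe t r) * r * (1 - fe t r)) s := by
    rw [one_sub_cfc ht hs, cfc_mul (R := ℝ) (fun r => (1 - fe t r) * r) (fun r => 1 - fe t r) s
      (hc.mul continuous_id).continuousOn hc.continuousOn,
      cfc_mul (R := ℝ) (fun r => 1 - fe t r) (fun r => r) s
      hc.continuousOn continuousOn_id, cfc_id' ℝ s]
  rw [h1]
  refine norm_cfc_le ht.le fun r hr => ?_
  rw [Real.norm_eq_abs]
  exact fe_bound ht (spectrum_nonneg_of_nonneg hs hr)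

theorem key {t : ℝ} (ht : 0 < t) {s x : B} (hs : 0 ≤ s) (hx : star x * x ≤ s) :
    ‖x * (1 - cfc (fe t) s)‖ ^ 2 ≤ t := by
  obtain ⟨c, hc⟩ : ∃ c, c = 1 - cfc (fe t) s := ⟨_, rfl⟩
  have hcs : star c = c := by
    rw [hc, star_sub, star_one, cfc_sa]
  have h1 : c * (star x * x) * c ≤ c * s * c := by
    have := star_left_conjugate_le_conjugate hx c
    rwa [hcs] at this
  have h2 : star (x * c) * (x * c) = c * (star x * x) * c := by
    rw [star_mul, hcs]
    simp only [mul_assoc]
  have h3 := CStarAlgebra.norm_le_norm_of_nonneg_of_le (star_mul_self_nonneg (x * c))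
    (h2.le.trans h1)
  rw [CStarRing.norm_star_mul_self, ← sq] at h3
  rw [← hc]
  refine h3.trans ?_
  rw [hc]
  exact cut_norm ht hs

theorem mem_e {t : ℝ} (ht : 0 < t) {s : B} (hs : 0 ≤ s) :
    cfc (fe t) s = s * cfc (fun r : ℝ => 1 / (max r 0 + t)) s := by
  have hsa : IsSelfAdjoint s := IsSelfAdjoint.of_nonneg hs
  have hc := ge_cont ht
  nth_rewrite 2 [← cfc_id' ℝ s]
  rw [← cfc_mul (R := ℝ) (fun r => r) (fun r : ℝ => 1 / (max r 0 + t)) s (by fun_prop)
    hc.continuousOn]
  refine cfc_congr fun r hr => ?_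
  have h0 : 0 ≤ r := spectrum_nonneg_of_nonneg hs hr
  unfold fe
  rw [max_eq_left h0]
  ring

end

theorem t_AU : S_AU := by
  intro B _ I hI F ε hF hε
  let _ : PartialOrder B := CStarAlgebra.spectralOrder B
  let _ : StarOrderedRing B := CStarAlgebra.spectralOrderedRing B
  obtain ⟨s, hs⟩ : ∃ s, s = ∑ a ∈ F, (a * star a + star a * a) := ⟨_, rfl⟩
  have ht : 0 < ε ^ 2 := by positivity
  have hnn : ∀ a ∈ F, 0 ≤ a * star a + star a * a := fun a _ =>
    add_nonneg (mul_star_self_nonneg a) (star_mul_self_nonneg a)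
  have hs0 : 0 ≤ s := by
    rw [hs]
    exact Finset.sum_nonneg hnn
  have hsI : s ∈ I := by
    rw [hs]
    exact Submodule.sum_mem _ fun a ha => I.add_mem (hI.mulR a (hF a ha) _)
      (hI.mulL a (hF a ha) _)
  have hle : ∀ a ∈ F, a * star a ≤ s ∧ star a * a ≤ s := by
    intro a ha
    have h1 : a * star a + star a * a ≤ s := by
      rw [hs]
      exact Finset.single_le_sum hnn ha
    exact ⟨(le_add_of_nonneg_right (star_mul_self_nonneg a)).trans h1,
      (le_add_of_nonneg_left (mul_star_self_nonneg a)).trans h1⟩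
  refine ⟨cfc (fe (ε ^ 2)) s, ?_, ?_, ?_, fun a ha => ⟨?_, ?_⟩⟩
  · rw [mem_e ht hs0]
    exact hI.mulR s hsI _
  · rw [pos_iff]
    exact cfc_nonneg fun r _ => fe_nonneg ht r
  · rw [pos_iff, one_sub_cfc ht hs0]
    exact cfc_nonneg fun r _ => sub_nonneg.2 (fe_le_one ht r)
  · have h1 := key ht (x := star a) hs0 (by rw [star_star]; exact (hle a ha).1)
    have h2 : star (star a * (1 - cfc (fe (ε ^ 2)) s)) = -(cfc (fe (ε ^ 2)) s * a - a) := by
      rw [star_mul, star_star, star_sub, star_one, cfc_sa]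
      noncomm_ring
    rw [← norm_neg, ← h2, norm_star]
    exact (pow_le_pow_iff_left₀ (norm_nonneg _) hε.le two_ne_zero).1 h1
  · have h1 := key ht (x := a) hs0 (hle a ha).2
    have h2 : a * (1 - cfc (fe (ε ^ 2)) s) = -(a * cfc (fe (ε ^ 2)) s - a) := by
      noncomm_ring
    rw [← norm_neg, ← h2]
    exact (pow_le_pow_iff_left₀ (norm_nonneg _) hε.le two_ne_zero).1 h1

end Pool.Agent.N340.ND
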